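import Pool.Agent.Helper68.BA.Defs

set_option autoImplicit false

noncomputable section

namespace Pool.Agent.Helper68.BA

open MeasureTheory Set Filter Topology Complex
open scoped ContDiff

/-! ## Module BI (bilinear Riesz-Thorin) -/

theorem differentiable_integral_exp {E : Type*} [MeasurableSpace E] (μ : Measure E)
    (a : E → ℂ) (v : E → ℝ) (ha : Integrable a μ) (hv : AEStronglyMeasurable v μ) (M : ℝ)
    (hM : ∀ x, |v x| ≤ M) :
    Differentiable ℂ (fun z : ℂ => ∫ x, a x * cexp (z * v x) ∂μ) := by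
  intro z0
  have hmeas : ∀ z : ℂ, AEStronglyMeasurable (fun x => a x * cexp (z * v x)) μ := by
    intro z
    refine ha.aestronglyMeasurable.mul ?_
    have : Continuous (fun t : ℝ => cexp (z * t)) := by fun_prop
    exact this.comp_aestronglyMeasurable hv
  have hexp : ∀ (z : ℂ) (x : E), ‖cexp (z * v x)‖ ≤ Real.exp (‖z‖ * M) := by
    intro z x
    rw [Complex.norm_exp]
    apply Real.exp_le_exp.2
    rw [Complex.re_mul_ofReal]
    calc z.re * v x ≤ |z.re * v x| := le_abs_self _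
      _ = |z.re| * |v x| := abs_mul _ _
      _ ≤ ‖z‖ * M := mul_le_mul (Complex.abs_re_le_norm z) (hM x) (abs_nonneg _) (norm_nonneg _)
  have key := hasDerivAt_integral_of_dominated_loc_of_deriv_le (μ := μ) (𝕜 := ℂ)
    (F := fun (z : ℂ) (x : E) => a x * cexp (z * v x))
    (F' := fun (z : ℂ) (x : E) => a x * (cexp (z * v x) * v x))
    (x₀ := z0) (s := Metric.ball z0 1)
    (bound := fun x => ‖a x‖ * (Real.exp ((‖z0‖ + 1) * M) * M))
    (Metric.ball_mem_nhds z0 one_pos)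
    (Eventually.of_forall hmeas) ?_ ?_ ?_ ?_ ?_
  · exact key.2.differentiableAt
  · refine (ha.norm.mul_const (Real.exp (‖z0‖ * M))).mono' (hmeas z0) ?_
    refine Eventually.of_forall fun x => ?_
    rw [norm_mul]
    exact mul_le_mul_of_nonneg_left (hexp z0 x) (norm_nonneg _)
  · have : Continuous (fun t : ℝ => cexp (z0 * t) * (t : ℂ)) := by fun_prop
    exact ha.aestronglyMeasurable.mul (this.comp_aestronglyMeasurable hv)
  · refine Eventually.of_forall fun x z hz => ?_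
    have hM0 : 0 ≤ M := (abs_nonneg _).trans (hM x)
    rw [norm_mul, norm_mul, Complex.norm_real, Real.norm_eq_abs]
    refine mul_le_mul_of_nonneg_left ?_ (norm_nonneg _)
    refine mul_le_mul ((hexp z x).trans ?_) (hM x) (abs_nonneg _) (Real.exp_nonneg _)
    apply Real.exp_le_exp.2
    refine mul_le_mul_of_nonneg_right ?_ hM0
    have h1 : ‖z - z0‖ < 1 := by simpa [dist_eq_norm] using hz
    have h2 : ‖z‖ ≤ ‖z - z0‖ + ‖z0‖ := by
      simpa using norm_add_le (z - z0) z0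
    linarith
  · exact ha.norm.mul_const _
  · refine Eventually.of_forall fun x z _ => ?_
    have h1 : HasDerivAt (fun z : ℂ => z * (v x : ℂ)) (v x : ℂ) z := by
      simpa using (hasDerivAt_id z).mul_const (v x : ℂ)
    exact (h1.cexp).const_mul (a x)

namespace BI

/-- the measure `δ_0 + du` on the half line -/
def rho : Measure ℝ := Measure.dirac 0 + volume.restrict (Ioi 0)

instance : SFinite rho := by unfold rho; infer_instance

/-- the weight `1` at `0` and `-κ` elsewhere -/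
def cc (κ : ℝ → ℝ) (u : ℝ) : ℂ := if u = 0 then 1 else -(κ u : ℂ)

theorem cc_integrable (κ : ℝ → ℝ) (hκ : IntegrableOn κ (Ioi 0)) : Integrable (cc κ) rho := by
  unfold rho
  refine Integrable.add_measure ?_ ?_
  · exact integrable_dirac (by simp)
  · have h : IntegrableOn (fun u => -(κ u : ℂ)) (Ioi 0) := hκ.ofReal.neg
    refine IntegrableOn.congr_fun h ?_ measurableSet_Ioi
    intro u hu
    have : u ≠ 0 := ne_of_gt hu
    simp [cc, this]

theorem cc_norm_integral (κ : ℝ → ℝ) (hκ : IntegrableOn κ (Ioi 0)) :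
    ∫ u, ‖cc κ u‖ ∂rho = 1 + ∫ u in Ioi (0 : ℝ), |κ u| := by
  have hi := (cc_integrable κ hκ).norm
  unfold rho at hi ⊢
  rw [integral_add_measure hi.left_of_add_measure hi.right_of_add_measure, integral_dirac]
  congr 1
  · simp [cc]
  · refine setIntegral_congr_fun measurableSet_Ioi ?_
    intro u hu
    have : u ≠ 0 := ne_of_gt hu
    simp [cc, this]

theorem cc_mul_integrable (κ : ℝ → ℝ) (hκ : IntegrableOn κ (Ioi 0)) (f : ℝ → ℂ)
    (hf : Continuous f) (M : ℝ) (hM : ∀ y, ‖f y‖ ≤ M) (y : ℝ) :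
    Integrable (fun u => cc κ u * f (y + u)) rho := by
  refine (cc_integrable κ hκ).mul_bdd (c := M) ?_ ?_
  · exact (hf.comp (continuous_const.add continuous_id)).aestronglyMeasurable
  · exact Eventually.of_forall fun u => hM _

theorem sop_eq (κ : ℝ → ℝ) (hκ : IntegrableOn κ (Ioi 0)) (f : ℝ → ℂ)
    (hf : Continuous f) (M : ℝ) (hM : ∀ y, ‖f y‖ ≤ M) (y : ℝ) :
    Sop κ f y = ∫ u, cc κ u * f (y + u) ∂rho := by
  have hi := cc_mul_integrable κ hκ f hf M hM y
  unfold rho at hi ⊢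
  rw [integral_add_measure hi.left_of_add_measure hi.right_of_add_measure, integral_dirac]
  unfold Sop
  have : ∫ u in Ioi (0 : ℝ), cc κ u * f (y + u) = ∫ u in Ioi (0 : ℝ), -((κ u : ℂ) * f (y + u)) := by
    refine setIntegral_congr_fun measurableSet_Ioi ?_
    intro u hu
    have : u ≠ 0 := ne_of_gt hu
    simp [cc, this]
  rw [this, integral_neg]
  simp [cc, sub_eq_add_neg]

theorem sop_norm_le (κ : ℝ → ℝ) (hκ : IntegrableOn κ (Ioi 0)) (f : ℝ → ℂ)
    (hf : Continuous f) (M : ℝ) (hM : ∀ y, ‖f y‖ ≤ M) (y : ℝ) :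
    ‖Sop κ f y‖ ≤ (1 + ∫ u in Ioi (0 : ℝ), |κ u|) * M := by
  rw [sop_eq κ hκ f hf M hM y, ← cc_norm_integral κ hκ, ← integral_mul_const]
  refine (norm_integral_le_integral_norm _).trans ?_
  refine integral_mono_of_nonneg (Eventually.of_forall fun u => norm_nonneg _)
    ((cc_integrable κ hκ).norm.mul_const M) (Eventually.of_forall fun u => ?_)
  simp only [norm_mul]
  exact mul_le_mul_of_nonneg_left (hM _) (norm_nonneg _)

theorem sop_continuous (κ : ℝ → ℝ) (hκ : IntegrableOn κ (Ioi 0)) (f : ℝ → ℂ)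
    (hf : Continuous f) (M : ℝ) (hM : ∀ y, ‖f y‖ ≤ M) : Continuous (Sop κ f) := by
  have h : Sop κ f = fun y => ∫ u, cc κ u * f (y + u) ∂rho := by
    funext y
    exact sop_eq κ hκ f hf M hM y
  rw [h]
  refine continuous_of_dominated (bound := fun u => ‖cc κ u‖ * M) ?_ ?_ ?_ ?_
  · intro y
    exact (cc_mul_integrable κ hκ f hf M hM y).aestronglyMeasurable
  · intro y
    refine Eventually.of_forall fun u => ?_
    rw [norm_mul]
    exact mul_le_mul_of_nonneg_left (hM _) (norm_nonneg _)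
  · exact (cc_integrable κ hκ).norm.mul_const M
  · refine Eventually.of_forall fun u => ?_
    exact continuous_const.mul (hf.comp (continuous_id.add continuous_const))

theorem prod_integrable (κ : ℝ → ℝ) (hκ : IntegrableOn κ (Ioi 0)) (f g : ℝ → ℂ)
    (hf : Continuous f) (M : ℝ) (hM : ∀ y, ‖f y‖ ≤ M) (hg : Integrable g) :
    Integrable (fun q : ℝ × ℝ => (g q.1 * cc κ q.2) * f (q.1 + q.2)) (volume.prod rho) := by
  refine (hg.mul_prod (cc_integrable κ hκ)).mul_bdd (c := M) ?_ ?_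
  · exact (hf.comp (continuous_fst.add continuous_snd)).aestronglyMeasurable
  · exact Eventually.of_forall fun q => hM _

theorem prod_integral (κ : ℝ → ℝ) (hκ : IntegrableOn κ (Ioi 0)) (f g : ℝ → ℂ)
    (hf : Continuous f) (M : ℝ) (hM : ∀ y, ‖f y‖ ≤ M) (hg : Integrable g) :
    ∫ q : ℝ × ℝ, (g q.1 * cc κ q.2) * f (q.1 + q.2) ∂(volume.prod rho) =
      ∫ y, Sop κ f y * g y := by
  rw [integral_prod _ (prod_integrable κ hκ f g hf M hM hg)]
  refine integral_congr_ae (Eventually.of_forall fun y => ?_)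
  simp only
  rw [sop_eq κ hκ f hf M hM y, mul_comm, ← integral_const_mul]
  refine integral_congr_ae (Eventually.of_forall fun u => ?_)
  simp only
  ring

/-- the analytic family `f |.|^{..}` regularised -/
def fz (e A B : ℝ) (f : ℝ → ℂ) (z : ℂ) (y : ℝ) : ℂ :=
  f y * cexp (((A : ℂ) + (B : ℂ) * z) * (Real.log (‖f y‖ ^ 2 + e) : ℝ))

theorem pos_aux {e : ℝ} (he : 0 < e) (f : ℝ → ℂ) (y : ℝ) : 0 < ‖f y‖ ^ 2 + e := by positivity

theorem log_continuous {e : ℝ} (he : 0 < e) {f : ℝ → ℂ} (hf : Continuous f) :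
    Continuous fun y => Real.log (‖f y‖ ^ 2 + e) := by
  refine Continuous.log (by fun_prop) fun y => (pos_aux he f y).ne'

theorem fz_continuous {e : ℝ} (he : 0 < e) (A B : ℝ) {f : ℝ → ℂ} (hf : Continuous f) (z : ℂ) :
    Continuous (fz e A B f z) := by
  unfold fz
  have := log_continuous he hf
  fun_prop

theorem fz_hasCompactSupport (e A B : ℝ) {f : ℝ → ℂ} (hf : HasCompactSupport f) (z : ℂ) :
    HasCompactSupport (fz e A B f z) := by
  unfold fz
  exact hf.mul_right

theorem fz_norm {e : ℝ} (he : 0 < e) (A B : ℝ) (f : ℝ → ℂ) (z : ℂ) (y : ℝ) :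
    ‖fz e A B f z y‖ = ‖f y‖ * (‖f y‖ ^ 2 + e) ^ (A + B * z.re) := by
  unfold fz
  rw [norm_mul, Complex.norm_exp, Complex.re_mul_ofReal, Real.rpow_def_of_pos (pos_aux he f y)]
  congr 2
  simp
  ring

theorem fz_zero {e A B : ℝ} {z : ℂ} (h : (A : ℂ) + (B : ℂ) * z = 0) (f : ℝ → ℂ) :
    fz e A B f z = f := by
  funext y
  simp [fz, h]

theorem bdd_of_cs {f : ℝ → ℂ} (hf : Continuous f) (hfc : HasCompactSupport f) :
    ∃ M : ℝ, 0 ≤ M ∧ ∀ y, ‖f y‖ ≤ M := by
  obtain ⟨M, hM⟩ := hfc.exists_bound_of_continuous hf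
  exact ⟨M, (norm_nonneg _).trans (hM 0), hM⟩

theorem log_bdd {e : ℝ} (he : 0 < e) {f : ℝ → ℂ} (hf : Continuous f)
    (hfc : HasCompactSupport f) : ∃ M : ℝ, 0 ≤ M ∧ ∀ y, |Real.log (‖f y‖ ^ 2 + e)| ≤ M := by
  obtain ⟨M, hM0, hM⟩ := bdd_of_cs hf hfc
  refine ⟨max |Real.log e| |Real.log (M ^ 2 + e)|, le_max_of_le_left (abs_nonneg _), fun y => ?_⟩
  have h1 : Real.log e ≤ Real.log (‖f y‖ ^ 2 + e) :=
    Real.log_le_log he (by nlinarith [sq_nonneg ‖f y‖])
  have h2 : Real.log (‖f y‖ ^ 2 + e) ≤ Real.log (M ^ 2 + e) := by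
    refine Real.log_le_log (pos_aux he f y) ?_
    have := pow_le_pow_left₀ (norm_nonneg (f y)) (hM y) 2
    linarith
  rw [abs_le]
  constructor
  · have h3 : -|Real.log e| ≤ Real.log e := neg_abs_le _
    have h4 : |Real.log e| ≤ max |Real.log e| |Real.log (M ^ 2 + e)| := le_max_left _ _
    linarith
  · have h3 : Real.log (M ^ 2 + e) ≤ |Real.log (M ^ 2 + e)| := le_abs_self _
    have h4 : |Real.log (M ^ 2 + e)| ≤ max |Real.log e| |Real.log (M ^ 2 + e)| := le_max_right _ _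
    linarith

/-- Cauchy-Schwarz for integrals -/
theorem cs_integral (a b : ℝ → ℝ) (ha : Integrable fun y => a y ^ 2)
    (hb : Integrable fun y => b y ^ 2) (hab : Integrable fun y => a y * b y) :
    ∫ y, a y * b y ≤ (∫ y, a y ^ 2) ^ (1 / 2 : ℝ) * (∫ y, b y ^ 2) ^ (1 / 2 : ℝ) := by
  have hA : 0 ≤ ∫ y, a y ^ 2 := integral_nonneg fun y => sq_nonneg _
  have hB : 0 ≤ ∫ y, b y ^ 2 := integral_nonneg fun y => sq_nonneg _
  rw [← Real.sqrt_eq_rpow, ← Real.sqrt_eq_rpow, ← Real.sqrt_mul hA]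
  apply Real.le_sqrt_of_sq_le
  have hd : ∀ t : ℝ, 0 ≤ (∫ y, b y ^ 2) * (t * t) + (-2 * ∫ y, a y * b y) * t + ∫ y, a y ^ 2 := by
    intro t
    have h1 : ∫ y, (a y - t * b y) ^ 2 =
        (∫ y, b y ^ 2) * (t * t) + (-2 * ∫ y, a y * b y) * t + ∫ y, a y ^ 2 := by
      have : ∀ y, (a y - t * b y) ^ 2 = (b y ^ 2 * (t * t) + (a y * b y) * (-2 * t)) + a y ^ 2 := by
        intro y; ring
      simp_rw [this]
      have hX : Integrable (fun y => b y ^ 2 * (t * t) + (a y * b y) * (-2 * t)) :=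
        (hb.mul_const _).add (hab.mul_const _)
      rw [integral_add hX ha,
        integral_add (hb.mul_const _) (hab.mul_const _), integral_mul_const, integral_mul_const]
      ring
    rw [← h1]
    exact integral_nonneg fun y => sq_nonneg _
  have := discrim_le_zero hd
  unfold discrim at this
  nlinarith

theorem tendsto_reg (φ ψ : ℝ → ℝ) (hφ : Integrable φ) (hψ : Continuous ψ)
    (hψ0 : ∀ y, 0 ≤ ψ y) (M : ℝ) (hM : ∀ y, ψ y ≤ M) (s : ℝ) (hs : 0 < s) :
    Tendsto (fun e : ℝ => ∫ y, φ y * (ψ y + e) ^ s) (𝓝[>] 0) (𝓝 (∫ y, φ y * ψ y ^ s)) := by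
  have hM0 : 0 ≤ M := (hψ0 0).trans (hM 0)
  refine tendsto_integral_filter_of_dominated_convergence (fun y => ‖φ y‖ * (M + 1) ^ s) ?_ ?_ ?_ ?_
  · refine Eventually.of_forall fun e => ?_
    refine hφ.aestronglyMeasurable.mul ?_
    have : Continuous fun y => (ψ y + e) ^ s := by
      refine Continuous.rpow_const (by fun_prop) fun y => Or.inr hs.le
    exact this.aestronglyMeasurable
  · have h1 : ∀ᶠ e : ℝ in 𝓝[>] 0, e < 1 := by
      filter_upwards [Ioo_mem_nhdsGT (zero_lt_one' ℝ)] with e he using he.2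
    filter_upwards [h1, self_mem_nhdsWithin] with e he1 he0
    refine Eventually.of_forall fun y => ?_
    have he0' : 0 < e := he0
    have h2 : 0 ≤ ψ y + e := by have := hψ0 y; linarith
    rw [norm_mul, Real.norm_eq_abs ((ψ y + e) ^ s), abs_of_nonneg (Real.rpow_nonneg h2 _)]
    refine mul_le_mul_of_nonneg_left (Real.rpow_le_rpow h2 ?_ hs.le) (norm_nonneg _)
    have := hM y
    linarith
  · exact hφ.norm.mul_const _
  · refine Eventually.of_forall fun y => ?_
    refine Tendsto.mul tendsto_const_nhds ?_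
    have h : Continuous fun e : ℝ => (ψ y + e) ^ s :=
      Continuous.rpow_const (by fun_prop) fun y => Or.inr hs.le
    have := (h.tendsto 0).mono_left (nhdsWithin_le_nhds (s := Ioi 0))
    simpa using this

theorem fz_norm_one {e : ℝ} (he : 0 < e) (A B : ℝ) (f : ℝ → ℂ) (z : ℂ) (hz : z.re = 1)
    (hAB : A + B = -(1 / 2)) (y : ℝ) : ‖fz e A B f z y‖ ≤ 1 := by
  rw [fz_norm he, hz, mul_one, hAB, Real.rpow_neg (pos_aux he f y).le, ← Real.sqrt_eq_rpow]
  have h1 : ‖f y‖ ≤ Real.sqrt (‖f y‖ ^ 2 + e) := by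
    apply Real.le_sqrt_of_sq_le
    linarith
  have h2 : 0 < Real.sqrt (‖f y‖ ^ 2 + e) := Real.sqrt_pos.2 (pos_aux he f y)
  rw [← div_eq_mul_inv, div_le_one h2]
  exact h1

theorem bilin_e (κ : ℝ → ℝ) (hκ : IntegrableOn κ (Ioi 0))
    (w : ℝ → ℝ) (hw : Continuous w) (hw0 : ∀ y, 0 < w y) (N : ℝ)
    (hN : 1 + ∫ u in Ioi (0 : ℝ), |κ u| ≤ N)
    (h2 : ∀ f : ℝ → ℂ, Continuous f → HasCompactSupport f →
      Integrable (fun y => ‖Sop κ f y‖ ^ 2 * w y) ∧
        ∫ y, ‖Sop κ f y‖ ^ 2 * w y ≤ ∫ y, ‖f y‖ ^ 2 * w y)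
    (p : ℝ) (hp : 2 < p) (f g : ℝ → ℂ) (hf : Continuous f) (hfc : HasCompactSupport f)
    (hg : Continuous g) (hgc : HasCompactSupport g) (e : ℝ) (he : 0 < e) :
    ‖∫ y, Sop κ f y * g y * (w y : ℂ)‖ ≤
      ((∫ y, (‖f y‖ ^ 2 * w y) * (‖f y‖ ^ 2 + e) ^ (p / 2 - 1)) ^ (1 / 2 : ℝ) *
        (∫ y, ‖g y‖ ^ (p / (p - 1)) * w y) ^ (1 / 2 : ℝ)) ^ (2 / p) *
      (N * ∫ y, (‖g y‖ * w y) * (‖g y‖ ^ 2 + e) ^ ((p / (p - 1) - 1) / 2)) ^ (1 - 2 / p) := by
  have hp0 : 0 < p := by linarith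
  have hp1 : 0 < p - 1 := by linarith
  obtain ⟨q, hq⟩ : ∃ q, q = p / (p - 1) := ⟨_, rfl⟩
  rw [← hq]
  have hq1 : 1 < q := by rw [hq, lt_div_iff₀ hp1]; linarith
  have hq2 : q < 2 := by rw [hq, div_lt_iff₀ hp1]; linarith
  have hqp : q * (1 - 1 / p) = 1 := by rw [hq]; field_simp
  obtain ⟨A, hA⟩ : ∃ A, A = (p / 2 - 1) / 2 := ⟨_, rfl⟩
  obtain ⟨B, hB⟩ : ∃ B, B = -(p / 4) := ⟨_, rfl⟩
  obtain ⟨A', hA'⟩ : ∃ A', A' = (q / 2 - 1) / 2 := ⟨_, rfl⟩
  obtain ⟨B', hB'⟩ : ∃ B', B' = q / 4 := ⟨_, rfl⟩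
  obtain ⟨M1, hM10, hM1⟩ := log_bdd he hf hfc
  obtain ⟨M2, hM20, hM2⟩ := log_bdd he hg hgc
  have hfzc : ∀ z, Continuous (fz e A B f z) := fun z => fz_continuous he A B hf z
  have hgzc : ∀ z, Continuous (fz e A' B' g z) := fun z => fz_continuous he A' B' hg z
  have hfzs : ∀ z, HasCompactSupport (fz e A B f z) := fun z => fz_hasCompactSupport e A B hfc z
  have hgzs : ∀ z, HasCompactSupport (fz e A' B' g z) := fun z => fz_hasCompactSupport e A' B' hgc z
  have hwC : Continuous fun y => (w y : ℂ) := by fun_prop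
  have hgwi : ∀ z, Integrable (fun y => fz e A' B' g z y * (w y : ℂ)) := fun z =>
    ((hgzc z).mul hwC).integrable_of_hasCompactSupport ((hgzs z).mul_right)
  obtain ⟨C0, hC00, hC0⟩ := bdd_of_cs (hfzc 0) (hfzs 0)
  -- the analytic function
  let a : ℝ × ℝ → ℂ := fun x =>
    ((fz e A' B' g 0 x.1 * (w x.1 : ℂ)) * cc κ x.2) * fz e A B f 0 (x.1 + x.2)
  let v : ℝ × ℝ → ℝ := fun x => B * Real.log (‖f (x.1 + x.2)‖ ^ 2 + e) +
    B' * Real.log (‖g x.1‖ ^ 2 + e)
  let F : ℂ → ℂ := fun z => ∫ x, a x * cexp (z * v x) ∂(volume.prod rho)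
  have hai : Integrable a (volume.prod rho) :=
    prod_integrable κ hκ (fz e A B f 0) (fun y => fz e A' B' g 0 y * (w y : ℂ)) (hfzc 0) C0 hC0
      (hgwi 0)
  have hvc : Continuous v := by
    have h1 := (log_continuous he hf).comp (continuous_fst.add continuous_snd (M := ℝ))
    have h3 := (log_continuous he hg).comp (continuous_fst (X := ℝ) (Y := ℝ))
    exact (continuous_const.mul h1).add (continuous_const.mul h3)
  have hvM : ∀ x, |v x| ≤ |B| * M1 + |B'| * M2 := by
    intro x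
    refine (abs_add_le _ _).trans ?_
    rw [abs_mul, abs_mul]
    exact add_le_add (mul_le_mul_of_nonneg_left (hM1 _) (abs_nonneg _))
      (mul_le_mul_of_nonneg_left (hM2 _) (abs_nonneg _))
  have hFd : Differentiable ℂ F :=
    differentiable_integral_exp _ a v hai hvc.aestronglyMeasurable _ hvM
  have hF : ∀ z, F z = ∫ y, Sop κ (fz e A B f z) y * (fz e A' B' g z y * (w y : ℂ)) := by
    intro z
    obtain ⟨C, _, hC⟩ := bdd_of_cs (hfzc z) (hfzs z)
    rw [← prod_integral κ hκ (fz e A B f z) (fun y => fz e A' B' g z y * (w y : ℂ)) (hfzc z) C hC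
      (hgwi z)]
    refine integral_congr_ae (Eventually.of_forall fun x => ?_)
    simp only [a, v, fz]
    have h1 : ∀ (A B L : ℝ), cexp (((A : ℂ) + (B : ℂ) * z) * (L : ℂ)) =
        cexp (((A : ℂ) + (B : ℂ) * 0) * (L : ℂ)) * cexp (z * ((B * L : ℝ) : ℂ)) := by
      intro A B L
      rw [← Complex.exp_add]
      congr 1
      push_cast
      ring
    rw [h1 A B, h1 A' B']
    have h3 : cexp (z * ((B * Real.log (‖f (x.1 + x.2)‖ ^ 2 + e) +
        B' * Real.log (‖g x.1‖ ^ 2 + e) : ℝ) : ℂ)) =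
        cexp (z * ((B * Real.log (‖f (x.1 + x.2)‖ ^ 2 + e) : ℝ) : ℂ)) *
        cexp (z * ((B' * Real.log (‖g x.1‖ ^ 2 + e) : ℝ) : ℂ)) := by
      rw [← Complex.exp_add]
      congr 1
      push_cast
      ring
    rw [h3]
    ring
  -- bounds
  have hFle : ∀ z, ‖F z‖ ≤ ∫ y, ‖Sop κ (fz e A B f z) y‖ * (‖fz e A' B' g z y‖ * w y) := by
    intro z
    rw [hF z]
    refine (norm_integral_le_integral_norm _).trans (le_of_eq ?_)
    refine integral_congr_ae (Eventually.of_forall fun y => ?_)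
    simp only [norm_mul, Complex.norm_real, Real.norm_eq_abs, abs_of_pos (hw0 y)]
  have hSc : ∀ z, Continuous (Sop κ (fz e A B f z)) := by
    intro z
    obtain ⟨C, _, hC⟩ := bdd_of_cs (hfzc z) (hfzs z)
    exact sop_continuous κ hκ _ (hfzc z) C hC
  have hgwn : ∀ z, HasCompactSupport fun y => ‖fz e A' B' g z y‖ := fun z => (hgzs z).norm
  have hre0 : ∀ z ∈ re ⁻¹' {(0 : ℝ)}, ‖F z‖ ≤
      (∫ y, (‖f y‖ ^ 2 * w y) * (‖f y‖ ^ 2 + e) ^ (p / 2 - 1)) ^ (1 / 2 : ℝ) *
        (∫ y, ‖g y‖ ^ q * w y) ^ (1 / 2 : ℝ) := by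
    intro z hz
    have hz0 : z.re = 0 := hz
    refine (hFle z).trans ?_
    have hcs := cs_integral (fun y => ‖Sop κ (fz e A B f z) y‖ * Real.sqrt (w y))
      (fun y => ‖fz e A' B' g z y‖ * Real.sqrt (w y)) ?_ ?_ ?_
    · have e1 : ∀ y, ‖Sop κ (fz e A B f z) y‖ * Real.sqrt (w y) *
          (‖fz e A' B' g z y‖ * Real.sqrt (w y)) =
          ‖Sop κ (fz e A B f z) y‖ * (‖fz e A' B' g z y‖ * w y) := by
        intro y
        have := Real.mul_self_sqrt (hw0 y).le
        calc _ = ‖Sop κ (fz e A B f z) y‖ * (‖fz e A' B' g z y‖ *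
              (Real.sqrt (w y) * Real.sqrt (w y))) := by ring
          _ = _ := by rw [this]
      have e2 : ∀ y, (‖Sop κ (fz e A B f z) y‖ * Real.sqrt (w y)) ^ 2 =
          ‖Sop κ (fz e A B f z) y‖ ^ 2 * w y := by
        intro y
        rw [mul_pow, Real.sq_sqrt (hw0 y).le]
      have e3 : ∀ y, (‖fz e A' B' g z y‖ * Real.sqrt (w y)) ^ 2 =
          ‖fz e A' B' g z y‖ ^ 2 * w y := by
        intro y
        rw [mul_pow, Real.sq_sqrt (hw0 y).le]
      simp_rw [e1, e2, e3] at hcs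
      refine hcs.trans ?_
      refine mul_le_mul (Real.rpow_le_rpow ?_ ?_ (by norm_num))
        (Real.rpow_le_rpow ?_ ?_ (by norm_num)) ?_ ?_
      · exact integral_nonneg fun y => mul_nonneg (sq_nonneg _) (hw0 y).le
      · refine ((h2 _ (hfzc z) (hfzs z)).2).trans (le_of_eq ?_)
        refine integral_congr_ae (Eventually.of_forall fun y => ?_)
        simp only
        rw [fz_norm he, hz0, mul_zero, add_zero, mul_pow, ← Real.rpow_natCast (_ ^ A),
          ← Real.rpow_mul (pos_aux he f y).le]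
        have : A * ((2 : ℕ) : ℝ) = p / 2 - 1 := by rw [hA]; push_cast; ring
        rw [this]
        ring
      · exact integral_nonneg fun y => mul_nonneg (sq_nonneg _) (hw0 y).le
      · refine integral_mono_of_nonneg (Eventually.of_forall fun y =>
          mul_nonneg (sq_nonneg _) (hw0 y).le) ?_ (Eventually.of_forall fun y => ?_)
        · refine Continuous.integrable_of_hasCompactSupport ?_ ?_
          · refine Continuous.mul ?_ hw
            exact Continuous.rpow_const (by fun_prop) fun y => Or.inr (by linarith)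
          · refine HasCompactSupport.mul_right ?_
            refine hgc.norm.comp_left (g := fun t : ℝ => t ^ q) ?_
            exact Real.zero_rpow (by linarith)
        · simp only
          refine mul_le_mul_of_nonneg_right ?_ (hw0 y).le
          rw [fz_norm he, hz0, mul_zero, add_zero, mul_pow, ← Real.rpow_natCast (_ ^ A'),
            ← Real.rpow_mul (pos_aux he g y).le]
          have e4 : A' * ((2 : ℕ) : ℝ) = q / 2 - 1 := by rw [hA']; push_cast; ring
          rw [e4]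
          rcases eq_or_lt_of_le (norm_nonneg (g y)) with h0 | h0
          · rw [← h0]
            simp only [ne_eq, OfNat.ofNat_ne_zero, not_false_eq_true, zero_pow, zero_mul]
            exact Real.rpow_nonneg le_rfl _
          · have e5 : (‖g y‖ ^ 2 + e) ^ (q / 2 - 1) ≤ (‖g y‖ ^ 2) ^ (q / 2 - 1) :=
              Real.rpow_le_rpow_of_nonpos (by positivity) (by linarith) (by linarith)
            have e6 : ‖g y‖ ^ 2 * (‖g y‖ ^ 2) ^ (q / 2 - 1) = ‖g y‖ ^ q := by
              rw [← Real.rpow_natCast ‖g y‖ 2, ← Real.rpow_mul h0.le, ← Real.rpow_add h0]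
              congr 1
              push_cast
              ring
            rw [← e6]
            exact mul_le_mul_of_nonneg_left e5 (sq_nonneg _)
      · exact Real.rpow_nonneg (integral_nonneg fun y => mul_nonneg (sq_nonneg _) (hw0 y).le) _
      · refine Real.rpow_nonneg (integral_nonneg fun y => ?_) _
        exact mul_nonneg (mul_nonneg (sq_nonneg _) (hw0 y).le)
          (Real.rpow_nonneg (pos_aux he f y).le _)
    · have e2 : ∀ y, (‖Sop κ (fz e A B f z) y‖ * Real.sqrt (w y)) ^ 2 =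
          ‖Sop κ (fz e A B f z) y‖ ^ 2 * w y := by
        intro y
        rw [mul_pow, Real.sq_sqrt (hw0 y).le]
      simp_rw [e2]
      exact (h2 _ (hfzc z) (hfzs z)).1
    · refine Continuous.integrable_of_hasCompactSupport ?_ ?_
      · have := hgzc z
        fun_prop
      · have h5 := (hgwn z).mul_right (f' := fun y => Real.sqrt (w y))
        exact h5.comp_left (g := fun t : ℝ => t ^ 2) (by norm_num)
    · refine Continuous.integrable_of_hasCompactSupport ?_ ?_
      · have h3 := hgzc z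
        have h4 := hSc z
        fun_prop
      · exact ((hgwn z).mul_right).mul_left
  have hN0 : 0 ≤ N := by
    have : 0 ≤ ∫ u in Ioi (0 : ℝ), |κ u| := integral_nonneg fun u => abs_nonneg _
    linarith
  have hre1 : ∀ z ∈ re ⁻¹' {(1 : ℝ)}, ‖F z‖ ≤
      N * ∫ y, (‖g y‖ * w y) * (‖g y‖ ^ 2 + e) ^ ((q - 1) / 2) := by
    intro z hz
    have hz1 : z.re = 1 := hz
    refine (hFle z).trans ?_
    rw [← integral_const_mul]
    refine integral_mono_of_nonneg (Eventually.of_forall fun y => ?_) ?_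
      (Eventually.of_forall fun y => ?_)
    · exact mul_nonneg (norm_nonneg _) (mul_nonneg (norm_nonneg _) (hw0 y).le)
    · refine Integrable.const_mul ?_ _
      refine Continuous.integrable_of_hasCompactSupport ?_ ?_
      · refine Continuous.mul (by fun_prop) ?_
        exact Continuous.rpow_const (by fun_prop) fun y => Or.inl (pos_aux he g y).ne'
      · exact (hgc.norm.mul_right).mul_right
    · simp only
      have h6 : ‖fz e A' B' g z y‖ = ‖g y‖ * (‖g y‖ ^ 2 + e) ^ ((q - 1) / 2) := by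
        rw [fz_norm he, hz1, mul_one]
        congr 2
        rw [hA', hB']
        ring
      rw [h6]
      have h7 : ‖Sop κ (fz e A B f z) y‖ ≤ N := by
        refine (sop_norm_le κ hκ _ (hfzc z) 1
          (fz_norm_one he A B f z hz1 (by rw [hA, hB]; ring)) y).trans ?_
        linarith
      calc ‖Sop κ (fz e A B f z) y‖ * (‖g y‖ * (‖g y‖ ^ 2 + e) ^ ((q - 1) / 2) * w y) ≤
          N * (‖g y‖ * (‖g y‖ ^ 2 + e) ^ ((q - 1) / 2) * w y) := by
            refine mul_le_mul_of_nonneg_right h7 ?_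
            exact mul_nonneg (mul_nonneg (norm_nonneg _) (Real.rpow_nonneg (pos_aux he g y).le _))
              (hw0 y).le
        _ = _ := by ring
  have hbdd : BddAbove ((norm ∘ F) '' HadamardThreeLines.verticalClosedStrip 0 1) := by
    refine ⟨∫ x, ‖a x‖ * Real.exp (|B| * M1 + |B'| * M2) ∂(volume.prod rho), ?_⟩
    rintro _ ⟨z, hz, rfl⟩
    have hz' : z.re ∈ Icc (0 : ℝ) 1 := hz
    refine (norm_integral_le_integral_norm _).trans ?_
    refine integral_mono_of_nonneg (Eventually.of_forall fun x => norm_nonneg _)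
      (hai.norm.mul_const _) (Eventually.of_forall fun x => ?_)
    simp only
    rw [norm_mul, Complex.norm_exp, Complex.re_mul_ofReal]
    refine mul_le_mul_of_nonneg_left (Real.exp_le_exp.2 ?_) (norm_nonneg _)
    calc z.re * v x ≤ |z.re * v x| := le_abs_self _
      _ = z.re * |v x| := by rw [abs_mul, abs_of_nonneg hz'.1]
      _ ≤ 1 * |v x| := mul_le_mul_of_nonneg_right hz'.2 (abs_nonneg _)
      _ ≤ _ := by rw [one_mul]; exact hvM x
  have hθ0 : 0 ≤ 1 - 2 / p := by
    have : 2 / p ≤ 1 := by rw [div_le_one hp0]; exact hp.le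
    linarith
  have hθ1 : 1 - 2 / p ≤ 1 := by
    have : 0 ≤ 2 / p := by positivity
    linarith
  have key := HadamardThreeLines.norm_le_interp_of_mem_verticalClosedStrip₀₁' F
    (z := ((1 - 2 / p : ℝ) : ℂ)) (a := _) (b := _)
    (by
      show ((1 - 2 / p : ℝ) : ℂ).re ∈ Icc (0 : ℝ) 1
      rw [Complex.ofReal_re]
      exact ⟨hθ0, hθ1⟩) hFd.diffContOnCl hbdd hre0 hre1
  rw [Complex.ofReal_re] at key
  have h8 : (1 : ℝ) - (1 - 2 / p) = 2 / p := by ring
  rw [h8, hF, fz_zero (f := f), fz_zero (f := g)] at key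
  · refine le_trans (le_of_eq ?_) key
    congr 1
    refine integral_congr_ae (Eventually.of_forall fun y => ?_)
    simp only
    ring
  · rw [← Complex.ofReal_mul, ← Complex.ofReal_add]
    norm_cast
    rw [hA', hB']
    have : q / 2 * (1 - 1 / p) = 1 / 2 := by linarith
    field_simp at this ⊢
    linarith
  · rw [← Complex.ofReal_mul, ← Complex.ofReal_add]
    norm_cast
    rw [hA, hB]
    field_simp
    ring

end BI

open BI in
theorem interp_bilinear (κ : ℝ → ℝ) (hκc : Continuous κ) (hκ : IntegrableOn κ (Ioi 0))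
    (w : ℝ → ℝ) (hw : Continuous w) (hw0 : ∀ y, 0 < w y) (N : ℝ)
    (hN : 1 + ∫ u in Ioi (0 : ℝ), |κ u| ≤ N)
    (h2 : ∀ f : ℝ → ℂ, Continuous f → HasCompactSupport f →
      Integrable (fun y => ‖Sop κ f y‖ ^ 2 * w y) ∧
        ∫ y, ‖Sop κ f y‖ ^ 2 * w y ≤ ∫ y, ‖f y‖ ^ 2 * w y)
    (p : ℝ) (hp : 2 < p) (f g : ℝ → ℂ) (hf : Continuous f) (hfc : HasCompactSupport f)
    (hg : Continuous g) (hgc : HasCompactSupport g) :
    ‖∫ y, Sop κ f y * g y * (w y : ℂ)‖ ≤
      N ^ (1 - 2 / p) * (∫ y, ‖f y‖ ^ p * w y) ^ (1 / p) *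
        (∫ y, ‖g y‖ ^ (p / (p - 1)) * w y) ^ (1 - 1 / p) := by
  have _ := hκc
  have hp0 : 0 < p := by linarith
  have hp1 : 0 < p - 1 := by linarith
  obtain ⟨q, hq⟩ : ∃ q, q = p / (p - 1) := ⟨_, rfl⟩
  have hq1 : 1 < q := by rw [hq, lt_div_iff₀ hp1]; linarith
  have hN0 : 0 ≤ N := by
    have : 0 ≤ ∫ u in Ioi (0 : ℝ), |κ u| := integral_nonneg fun u => abs_nonneg _
    linarith
  obtain ⟨Mf, hMf0, hMf⟩ := bdd_of_cs hf hfc
  obtain ⟨Mg, hMg0, hMg⟩ := bdd_of_cs hg hgc
  have hθ0 : 0 ≤ 1 - 2 / p := by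
    have : 2 / p ≤ 1 := by rw [div_le_one hp0]; exact hp.le
    linarith
  have hP := tendsto_reg (fun y => ‖f y‖ ^ 2 * w y) (fun y => ‖f y‖ ^ 2) ?_ (by fun_prop)
    (fun y => sq_nonneg _) (Mf ^ 2) (fun y => pow_le_pow_left₀ (norm_nonneg _) (hMf y) 2)
    (p / 2 - 1) (by linarith)
  have hQ := tendsto_reg (fun y => ‖g y‖ * w y) (fun y => ‖g y‖ ^ 2) ?_ (by fun_prop)
    (fun y => sq_nonneg _) (Mg ^ 2) (fun y => pow_le_pow_left₀ (norm_nonneg _) (hMg y) 2)
    ((q - 1) / 2) (by linarith)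
  · have hlim := ((((hP.rpow_const (p := (1 / 2 : ℝ)) (Or.inr (by norm_num))).mul_const
      ((∫ y, ‖g y‖ ^ q * w y) ^ (1 / 2 : ℝ))).rpow_const (p := 2 / p)
        (Or.inr (by positivity))).mul
      ((hQ.const_mul N).rpow_const (p := 1 - 2 / p) (Or.inr hθ0)))
    have hle := ge_of_tendsto hlim (b := ‖∫ y, Sop κ f y * g y * (w y : ℂ)‖) (by
      filter_upwards [self_mem_nhdsWithin] with e he
      have := bilin_e κ hκ w hw hw0 N hN h2 p hp f g hf hfc hg hgc e he
      rw [← hq] at this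
      exact this)
    rw [← hq]
    have e1 : ∫ y, ‖f y‖ ^ 2 * w y * (‖f y‖ ^ 2) ^ (p / 2 - 1) = ∫ y, ‖f y‖ ^ p * w y := by
      refine integral_congr_ae (Eventually.of_forall fun y => ?_)
      simp only
      rcases eq_or_lt_of_le (norm_nonneg (f y)) with h0 | h0
      · rw [← h0, Real.zero_rpow (by linarith)]
        simp
      · rw [← Real.rpow_natCast ‖f y‖ 2, ← Real.rpow_mul h0.le, mul_right_comm,
          ← Real.rpow_add h0]
        congr 2
        push_cast
        ring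
    have e2 : ∫ y, ‖g y‖ * w y * (‖g y‖ ^ 2) ^ ((q - 1) / 2) = ∫ y, ‖g y‖ ^ q * w y := by
      refine integral_congr_ae (Eventually.of_forall fun y => ?_)
      simp only
      rcases eq_or_lt_of_le (norm_nonneg (g y)) with h0 | h0
      · rw [← h0, Real.zero_rpow (by linarith)]
        simp
      · rw [← Real.rpow_natCast ‖g y‖ 2, ← Real.rpow_mul h0.le, mul_right_comm]
        nth_rewrite 1 [← Real.rpow_one ‖g y‖]
        rw [← Real.rpow_add h0]
        congr 2
        push_cast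
        ring
    rw [e1, e2] at hle
    refine hle.trans (le_of_eq ?_)
    have hPn : 0 ≤ ∫ y, ‖f y‖ ^ p * w y :=
      integral_nonneg fun y => mul_nonneg (Real.rpow_nonneg (norm_nonneg _) _) (hw0 y).le
    have hQn : 0 ≤ ∫ y, ‖g y‖ ^ q * w y :=
      integral_nonneg fun y => mul_nonneg (Real.rpow_nonneg (norm_nonneg _) _) (hw0 y).le
    rw [Real.mul_rpow (Real.rpow_nonneg hPn _) (Real.rpow_nonneg hQn _), ← Real.rpow_mul hPn,
      ← Real.rpow_mul hQn, Real.mul_rpow hN0 hQn]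
    have e3 : (1 / 2 : ℝ) * (2 / p) = 1 / p := by ring
    have e4 : (1 : ℝ) - 1 / p = 1 / p + (1 - 2 / p) := by ring
    rw [e3, e4, Real.rpow_add_of_nonneg hQn (by positivity) hθ0]
    ring
  · exact (Continuous.integrable_of_hasCompactSupport (by fun_prop) hgc.norm.mul_right)
  · refine Continuous.integrable_of_hasCompactSupport (by fun_prop) ?_
    refine HasCompactSupport.mul_right ?_
    exact hfc.norm.comp_left (g := fun t : ℝ => t ^ 2) (by norm_num)

end Pool.Agent.Helper68.BA
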