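import Pool.Agent.Helper66.BAM.BI

set_option autoImplicit false

noncomputable section

namespace Pool.Agent.Helper68.BA

open MeasureTheory Set Filter Topology Complex
open scoped ContDiff

namespace LP

open BI

/-- cutoff function -/
def chi (m : ℕ) (y : ℝ) : ℝ := max 0 (min 1 ((m : ℝ) + 1 - |y|))

theorem chi_continuous (m : ℕ) : Continuous (chi m) := by
  unfold chi
  fun_prop

theorem chi_nonneg (m : ℕ) (y : ℝ) : 0 ≤ chi m y := le_max_left _ _

theorem chi_le_one (m : ℕ) (y : ℝ) : chi m y ≤ 1 :=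
  max_le zero_le_one (min_le_left _ _)

theorem chi_hasCompactSupport (m : ℕ) : HasCompactSupport (chi m) := by
  refine HasCompactSupport.intro (isCompact_Icc (a := -((m : ℝ) + 1)) (b := (m : ℝ) + 1)) ?_
  intro y hy
  have h : (m : ℝ) + 1 < |y| := by
    by_contra hc
    rw [not_lt, abs_le] at hc
    exact hy hc
  unfold chi
  rw [max_eq_left]
  exact (min_le_right _ _).trans (by linarith)

theorem chi_eventually (y : ℝ) : ∀ᶠ m : ℕ in atTop, chi m y = 1 := by
  obtain ⟨n, hn⟩ := exists_nat_ge |y|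
  filter_upwards [eventually_ge_atTop n] with m hm
  have hm' : (n : ℝ) ≤ m := by exact_mod_cast hm
  unfold chi
  rw [min_eq_left (by linarith), max_eq_right zero_le_one]

theorem chi_tendsto (y : ℝ) : Tendsto (fun m => chi m y) atTop (𝓝 1) :=
  tendsto_const_nhds.congr' ((chi_eventually y).mono fun _ hm => hm.symm)

theorem lp_chi (κ : ℝ → ℝ) (hκc : Continuous κ) (hκ : IntegrableOn κ (Ioi 0))
    (w : ℝ → ℝ) (hw : Continuous w) (hw0 : ∀ y, 0 < w y) (N : ℝ)
    (hN : 1 + ∫ u in Ioi (0 : ℝ), |κ u| ≤ N)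
    (h2 : ∀ f : ℝ → ℂ, Continuous f → HasCompactSupport f →
      Integrable (fun y => ‖Sop κ f y‖ ^ 2 * w y) ∧
        ∫ y, ‖Sop κ f y‖ ^ 2 * w y ≤ ∫ y, ‖f y‖ ^ 2 * w y)
    (p : ℝ) (hp : 2 < p) (f : ℝ → ℂ) (hf : Continuous f) (hfc : HasCompactSupport f) (m : ℕ) :
    ∫ y, chi m y * (‖Sop κ f y‖ ^ p * w y) ≤ N ^ (p - 2) * ∫ y, ‖f y‖ ^ p * w y := by
  have hp0 : 0 < p := by linarith
  have hp1 : 0 < p - 1 := by linarith
  have hN0 : 0 ≤ N := by
    have : 0 ≤ ∫ u in Ioi (0 : ℝ), |κ u| := integral_nonneg fun u => abs_nonneg _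
    linarith
  obtain ⟨Mf, hMf0, hMf⟩ := bdd_of_cs hf hfc
  have hG : Continuous (Sop κ f) := sop_continuous κ hκ f hf Mf hMf
  have hχ := chi_continuous m
  obtain ⟨q, hq⟩ : ∃ q, q = p / (p - 1) := ⟨_, rfl⟩
  have hq1 : 1 < q := by rw [hq, lt_div_iff₀ hp1]; linarith
  have hqp : (p - 1) * q = p := by rw [hq]; field_simp
  let g : ℝ → ℂ := fun y => ((chi m y * ‖Sop κ f y‖ ^ (p - 2) : ℝ) : ℂ) *
    (starRingEnd ℂ) (Sop κ f y)
  have hgc : Continuous g := by
    have h1 : Continuous fun y => ‖Sop κ f y‖ ^ (p - 2) :=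
      Continuous.rpow_const (by fun_prop) fun y => Or.inr (by linarith)
    have h3 : Continuous fun y => (starRingEnd ℂ) (Sop κ f y) := Complex.continuous_conj.comp hG
    exact (Complex.continuous_ofReal.comp (hχ.mul h1)).mul h3
  have hgs : HasCompactSupport g := by
    refine HasCompactSupport.mul_right ?_
    have h4 : HasCompactSupport fun y => chi m y * ‖Sop κ f y‖ ^ (p - 2) :=
      (chi_hasCompactSupport m).mul_right
    exact h4.comp_left (g := fun t : ℝ => (t : ℂ)) (by simp)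
  have key := interp_bilinear κ hκc hκ w hw hw0 N hN h2 p hp f g hf hfc hgc hgs
  rw [← hq] at key
  have hpow : ∀ t : ℝ, 0 ≤ t → t ^ (p - 2) * (t * t) = t ^ p := by
    intro t ht
    rcases eq_or_lt_of_le ht with h0 | h0
    · rw [← h0, Real.zero_rpow hp0.ne']
      simp
    · rw [← sq, ← Real.rpow_natCast t 2, ← Real.rpow_add h0]
      congr 1
      push_cast
      ring
  have hpow1 : ∀ t : ℝ, 0 ≤ t → t ^ (p - 2) * t = t ^ (p - 1) := by
    intro t ht
    rcases eq_or_lt_of_le ht with h0 | h0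
    · rw [← h0, Real.zero_rpow hp1.ne']
      simp
    · nth_rewrite 2 [← Real.rpow_one t]
      rw [← Real.rpow_add h0]
      congr 1
      ring
  have hgn : ∀ y, ‖g y‖ = chi m y * ‖Sop κ f y‖ ^ (p - 1) := by
    intro y
    simp only [g, norm_mul, Complex.norm_real, Real.norm_eq_abs, RCLike.norm_conj]
    rw [abs_of_nonneg (chi_nonneg m y), abs_of_nonneg (Real.rpow_nonneg (norm_nonneg _) _),
      mul_assoc, hpow1 _ (norm_nonneg _)]
  set I : ℝ := ∫ y, chi m y * (‖Sop κ f y‖ ^ p * w y) with hI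
  have hInt : Integrable fun y => chi m y * (‖Sop κ f y‖ ^ p * w y) := by
    refine Continuous.integrable_of_hasCompactSupport ?_ (chi_hasCompactSupport m).mul_right
    have h1 : Continuous fun y => ‖Sop κ f y‖ ^ p :=
      Continuous.rpow_const (by fun_prop) fun y => Or.inr hp0.le
    exact hχ.mul (h1.mul hw)
  have hI0 : 0 ≤ I := integral_nonneg fun y => mul_nonneg (chi_nonneg m y)
    (mul_nonneg (Real.rpow_nonneg (norm_nonneg _) _) (hw0 y).le)
  have hL : ‖∫ y, Sop κ f y * g y * (w y : ℂ)‖ = I := by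
    have h5 : ∀ y, Sop κ f y * g y * (w y : ℂ) =
        ((chi m y * (‖Sop κ f y‖ ^ p * w y) : ℝ) : ℂ) := by
      intro y
      simp only [g]
      have h6 : Sop κ f y * (starRingEnd ℂ) (Sop κ f y) = ((‖Sop κ f y‖ * ‖Sop κ f y‖ : ℝ) : ℂ) := by
        rw [Complex.mul_conj, Complex.normSq_eq_norm_sq, sq]
      rw [← hpow _ (norm_nonneg _)]
      calc _ = ((chi m y * ‖Sop κ f y‖ ^ (p - 2) : ℝ) : ℂ) *
            (Sop κ f y * (starRingEnd ℂ) (Sop κ f y)) * (w y : ℂ) := by ring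
        _ = _ := by rw [h6]; push_cast; ring
    simp_rw [h5]
    rw [integral_complex_ofReal, Complex.norm_real, Real.norm_eq_abs, abs_of_nonneg hI0]
  have hR : ∫ y, ‖g y‖ ^ q * w y ≤ I := by
    refine integral_mono_of_nonneg (Eventually.of_forall fun y =>
      mul_nonneg (Real.rpow_nonneg (norm_nonneg _) _) (hw0 y).le) hInt
      (Eventually.of_forall fun y => ?_)
    simp only
    rw [hgn, Real.mul_rpow (chi_nonneg m y) (Real.rpow_nonneg (norm_nonneg _) _),
      ← Real.rpow_mul (norm_nonneg _), hqp, mul_assoc]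
    refine mul_le_mul_of_nonneg_right ?_
      (mul_nonneg (Real.rpow_nonneg (norm_nonneg _) _) (hw0 y).le)
    calc chi m y ^ q ≤ chi m y ^ (1 : ℝ) :=
          Real.rpow_le_rpow_of_exponent_ge_of_imp (chi_nonneg m y) (chi_le_one m y) hq1.le
            (fun _ h => by linarith)
      _ = chi m y := Real.rpow_one _
  set P : ℝ := ∫ y, ‖f y‖ ^ p * w y with hP
  have hP0 : 0 ≤ P := integral_nonneg fun y =>
    mul_nonneg (Real.rpow_nonneg (norm_nonneg _) _) (hw0 y).le
  have hR0 : 0 ≤ ∫ y, ‖g y‖ ^ q * w y := integral_nonneg fun y =>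
    mul_nonneg (Real.rpow_nonneg (norm_nonneg _) _) (hw0 y).le
  rw [hL] at key
  have hip : 0 ≤ 1 - 1 / p := by
    have : 1 / p ≤ 1 := by rw [div_le_one hp0]; linarith
    linarith
  have key2 : I ≤ N ^ (1 - 2 / p) * P ^ (1 / p) * I ^ (1 - 1 / p) :=
    key.trans (mul_le_mul_of_nonneg_left (Real.rpow_le_rpow hR0 hR hip)
      (mul_nonneg (Real.rpow_nonneg hN0 _) (Real.rpow_nonneg hP0 _)))
  rcases eq_or_lt_of_le hI0 with h0 | h0
  · rw [← h0]
    exact mul_nonneg (Real.rpow_nonneg hN0 _) hP0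
  · have h7 : I ^ (1 / p) ≤ N ^ (1 - 2 / p) * P ^ (1 / p) := by
      have h8 : 0 < I ^ (1 - 1 / p) := Real.rpow_pos_of_pos h0 _
      have h9 : I = I ^ (1 / p) * I ^ (1 - 1 / p) := by
        rw [← Real.rpow_add h0]
        have : (1 / p + (1 - 1 / p) : ℝ) = 1 := by ring
        rw [this, Real.rpow_one]
      rw [h9] at key2
      have h10 : (I ^ (1 / p) * I ^ (1 - 1 / p)) = I := h9.symm
      have key3 : I ^ (1 / p) * I ^ (1 - 1 / p) ≤
          N ^ (1 - 2 / p) * P ^ (1 / p) * I ^ (1 - 1 / p) := by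
        rw [h10] at key2
        rw [h10]
        exact key2
      exact le_of_mul_le_mul_right key3 h8
    have h11 := Real.rpow_le_rpow (Real.rpow_nonneg hI0 _) h7 hp0.le
    rw [← Real.rpow_mul hI0, Real.mul_rpow (Real.rpow_nonneg hN0 _) (Real.rpow_nonneg hP0 _),
      ← Real.rpow_mul hN0, ← Real.rpow_mul hP0] at h11
    have e1 : (1 / p) * p = 1 := by field_simp
    have e2 : (1 - 2 / p) * p = p - 2 := by field_simp
    rw [e1, e2, Real.rpow_one, Real.rpow_one] at h11
    exact h11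

theorem lp_cs (κ : ℝ → ℝ) (hκc : Continuous κ) (hκ : IntegrableOn κ (Ioi 0))
    (w : ℝ → ℝ) (hw : Continuous w) (hw0 : ∀ y, 0 < w y) (N : ℝ)
    (hN : 1 + ∫ u in Ioi (0 : ℝ), |κ u| ≤ N)
    (h2 : ∀ f : ℝ → ℂ, Continuous f → HasCompactSupport f →
      Integrable (fun y => ‖Sop κ f y‖ ^ 2 * w y) ∧
        ∫ y, ‖Sop κ f y‖ ^ 2 * w y ≤ ∫ y, ‖f y‖ ^ 2 * w y)
    (p : ℝ) (hp : 2 ≤ p) (f : ℝ → ℂ) (hf : Continuous f) (hfc : HasCompactSupport f) :
    ∫⁻ y, ENNReal.ofReal (‖Sop κ f y‖ ^ p * w y) ≤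
      ENNReal.ofReal (N ^ (p - 2)) * ∫⁻ y, ENNReal.ofReal (‖f y‖ ^ p * w y) := by
  have hp0 : 0 < p := by linarith
  have hN0 : 0 ≤ N := by
    have : 0 ≤ ∫ u in Ioi (0 : ℝ), |κ u| := integral_nonneg fun u => abs_nonneg _
    linarith
  obtain ⟨Mf, hMf0, hMf⟩ := bdd_of_cs hf hfc
  have hG : Continuous (Sop κ f) := sop_continuous κ hκ f hf Mf hMf
  have hfi : Integrable fun y => ‖f y‖ ^ p * w y := by
    refine Continuous.integrable_of_hasCompactSupport ?_ ?_
    · refine Continuous.mul ?_ hw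
      exact Continuous.rpow_const (by fun_prop) fun y => Or.inr hp0.le
    · refine HasCompactSupport.mul_right ?_
      refine hfc.norm.comp_left (g := fun t : ℝ => t ^ p) ?_
      exact Real.zero_rpow hp0.ne'
  have hfn : ∀ y, 0 ≤ ‖f y‖ ^ p * w y := fun y =>
    mul_nonneg (Real.rpow_nonneg (norm_nonneg _) _) (hw0 y).le
  have hSn : ∀ y, 0 ≤ ‖Sop κ f y‖ ^ p * w y := fun y =>
    mul_nonneg (Real.rpow_nonneg (norm_nonneg _) _) (hw0 y).le
  rw [← ofReal_integral_eq_lintegral_ofReal hfi (Eventually.of_forall hfn),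
    ← ENNReal.ofReal_mul (Real.rpow_nonneg hN0 _)]
  rcases eq_or_lt_of_le hp with h | h
  · subst h
    obtain ⟨hi, hle⟩ := h2 f hf hfc
    simp only [Real.rpow_two]
    rw [← ofReal_integral_eq_lintegral_ofReal hi (Eventually.of_forall fun y =>
      mul_nonneg (sq_nonneg _) (hw0 y).le), sub_self, Real.rpow_zero, one_mul]
    exact ENNReal.ofReal_le_ofReal hle
  · have hSc : Continuous fun y => ‖Sop κ f y‖ ^ p * w y := by
      refine Continuous.mul ?_ hw
      exact Continuous.rpow_const (by fun_prop) fun y => Or.inr hp0.le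
    have hpt : ∀ y, liminf (fun m => ENNReal.ofReal (chi m y * (‖Sop κ f y‖ ^ p * w y))) atTop =
        ENNReal.ofReal (‖Sop κ f y‖ ^ p * w y) := by
      intro y
      refine Tendsto.liminf_eq ?_
      refine tendsto_const_nhds.congr' ((chi_eventually y).mono fun m hm => ?_)
      simp only [hm, one_mul]
    calc ∫⁻ y, ENNReal.ofReal (‖Sop κ f y‖ ^ p * w y)
        = ∫⁻ y, liminf (fun m => ENNReal.ofReal (chi m y * (‖Sop κ f y‖ ^ p * w y))) atTop := by
          simp_rw [hpt]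
      _ ≤ liminf (fun m => ∫⁻ y, ENNReal.ofReal (chi m y * (‖Sop κ f y‖ ^ p * w y))) atTop := by
          refine lintegral_liminf_le fun m => ?_
          exact (((chi_continuous m).mul hSc).measurable).ennreal_ofReal
      _ ≤ liminf (fun _ : ℕ => ENNReal.ofReal (N ^ (p - 2) * ∫ y, ‖f y‖ ^ p * w y)) atTop := by
          refine liminf_le_liminf (Eventually.of_forall fun m => ?_)
          have hi : Integrable fun y => chi m y * (‖Sop κ f y‖ ^ p * w y) :=
            Continuous.integrable_of_hasCompactSupport ((chi_continuous m).mul hSc)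
              (chi_hasCompactSupport m).mul_right
          rw [← ofReal_integral_eq_lintegral_ofReal hi (Eventually.of_forall fun y =>
            mul_nonneg (chi_nonneg m y) (hSn y))]
          exact ENNReal.ofReal_le_ofReal (lp_chi κ hκc hκ w hw hw0 N hN h2 p h f hf hfc m)
      _ = _ := by rw [liminf_const]

end LP

open BI LP in
theorem interp_Lp (κ : ℝ → ℝ) (hκc : Continuous κ) (hκ : IntegrableOn κ (Ioi 0))
    (w : ℝ → ℝ) (hw : Continuous w) (hw0 : ∀ y, 0 < w y) (N : ℝ)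
    (hN : 1 + ∫ u in Ioi (0 : ℝ), |κ u| ≤ N)
    (h2 : ∀ f : ℝ → ℂ, Continuous f → HasCompactSupport f →
      Integrable (fun y => ‖Sop κ f y‖ ^ 2 * w y) ∧
        ∫ y, ‖Sop κ f y‖ ^ 2 * w y ≤ ∫ y, ‖f y‖ ^ 2 * w y)
    (p : ℝ) (hp : 2 ≤ p) (f : ℝ → ℂ) (hf : Continuous f) (M : ℝ) (hM : ∀ y, ‖f y‖ ≤ M) :
    ∫⁻ y, ENNReal.ofReal (‖Sop κ f y‖ ^ p * w y) ≤
      ENNReal.ofReal (N ^ (p - 2)) * ∫⁻ y, ENNReal.ofReal (‖f y‖ ^ p * w y) := by
  have hp0 : 0 < p := by linarith
  -- cut-off functions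
  let F : ℕ → ℝ → ℂ := fun m y => (chi m y : ℂ) * f y
  have hFc : ∀ m, Continuous (F m) := fun m =>
    (Complex.continuous_ofReal.comp (chi_continuous m)).mul hf
  have hFs : ∀ m, HasCompactSupport (F m) := by
    intro m
    refine HasCompactSupport.mul_right ?_
    exact (chi_hasCompactSupport m).comp_left (g := fun t : ℝ => (t : ℂ)) (by simp)
  have hFle : ∀ m y, ‖F m y‖ ≤ ‖f y‖ := by
    intro m y
    simp only [F, norm_mul, Complex.norm_real, Real.norm_eq_abs, abs_of_nonneg (chi_nonneg m y)]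
    exact mul_le_of_le_one_left (norm_nonneg _) (chi_le_one m y)
  have hFM : ∀ m y, ‖F m y‖ ≤ M := fun m y => (hFle m y).trans (hM y)
  have hFt : ∀ y, Tendsto (fun m => F m y) atTop (𝓝 (f y)) := by
    intro y
    refine tendsto_const_nhds.congr' ((chi_eventually y).mono fun m hm => ?_)
    simp [F, hm]
  have hSt : ∀ y, Tendsto (fun m => Sop κ (F m) y) atTop (𝓝 (Sop κ f y)) := by
    intro y
    rw [sop_eq κ hκ f hf M hM y]
    have e : ∀ m, Sop κ (F m) y = ∫ u, cc κ u * F m (y + u) ∂rho := fun m =>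
      sop_eq κ hκ (F m) (hFc m) M (hFM m) y
    simp_rw [e]
    refine tendsto_integral_of_dominated_convergence (fun u => ‖cc κ u‖ * M) ?_ ?_ ?_ ?_
    · exact fun m => (cc_mul_integrable κ hκ (F m) (hFc m) M (hFM m) y).aestronglyMeasurable
    · exact (cc_integrable κ hκ).norm.mul_const M
    · intro m
      refine Eventually.of_forall fun u => ?_
      rw [norm_mul]
      exact mul_le_mul_of_nonneg_left (hFM m _) (norm_nonneg _)
    · exact Eventually.of_forall fun u => (hFt (y + u)).const_mul _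
  have hSc : ∀ m, Continuous (Sop κ (F m)) := fun m => sop_continuous κ hκ _ (hFc m) M (hFM m)
  have hpt : ∀ y, liminf (fun m => ENNReal.ofReal (‖Sop κ (F m) y‖ ^ p * w y)) atTop =
      ENNReal.ofReal (‖Sop κ f y‖ ^ p * w y) := by
    intro y
    refine Tendsto.liminf_eq ?_
    refine (ENNReal.continuous_ofReal.tendsto _).comp ?_
    exact ((hSt y).norm.rpow_const (Or.inr hp0.le)).mul_const _
  calc ∫⁻ y, ENNReal.ofReal (‖Sop κ f y‖ ^ p * w y)
      = ∫⁻ y, liminf (fun m => ENNReal.ofReal (‖Sop κ (F m) y‖ ^ p * w y)) atTop := by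
        simp_rw [hpt]
    _ ≤ liminf (fun m => ∫⁻ y, ENNReal.ofReal (‖Sop κ (F m) y‖ ^ p * w y)) atTop := by
        refine lintegral_liminf_le fun m => ?_
        have h1 : Continuous fun y => ‖Sop κ (F m) y‖ ^ p * w y := by
          refine Continuous.mul ?_ hw
          exact Continuous.rpow_const (hSc m).norm fun y => Or.inr hp0.le
        exact h1.measurable.ennreal_ofReal
    _ ≤ liminf (fun _ : ℕ => ENNReal.ofReal (N ^ (p - 2)) *
          ∫⁻ y, ENNReal.ofReal (‖f y‖ ^ p * w y)) atTop := by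
        refine liminf_le_liminf (Eventually.of_forall fun m => ?_)
        refine (lp_cs κ hκc hκ w hw hw0 N hN h2 p hp (F m) (hFc m) (hFs m)).trans ?_
        refine mul_le_mul_right (lintegral_mono fun y => ENNReal.ofReal_le_ofReal ?_) _
        exact mul_le_mul_of_nonneg_right
          (Real.rpow_le_rpow (norm_nonneg _) (hFle m y) hp0.le) (hw0 y).le
    _ = _ := by rw [liminf_const]

end Pool.Agent.Helper68.BA
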